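import Pool.Agent.Lib.MP_828a6d_al.BiG

set_option autoImplicit false

namespace Pool.Agent.Results.MP_828a6d_al.BilinearReduction

/-- Let `m = m_p(n)` be the largest `k` such that every group of order `p ^ n` has an abelian subgroup
of order `p ^ k`, and let `μ = μ_p(n)` be the least `k` such that for some `d + z = n` there is an
alternating bilinear map `β` from `F_p ^ d × F_p ^ d` to `F_p ^ z` with `z + dim U ≤ k` for every
totally isotropic subspace `U`.  Then `m ≤ μ ≤ m + 106 n ^ (7/16)`, for every prime `p` and all `n`. -/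
theorem result :
    ∀ p : ℕ, p.Prime → ∀ n m μ : ℕ,
      m = sSup {k : ℕ | ∀ (G : Type) [Group G], Nat.card G = p ^ n →
              ∃ H : Subgroup G, (∀ x ∈ H, ∀ y ∈ H, x * y = y * x) ∧ Nat.card H = p ^ k} →
      μ = sInf {k : ℕ | ∃ d z : ℕ, d + z = n ∧
              ∃ β : (Fin d → ZMod p) →ₗ[ZMod p] (Fin d → ZMod p) →ₗ[ZMod p] (Fin z → ZMod p),
                (∀ v, β v v = 0) ∧
                ∀ U : Submodule (ZMod p) (Fin d → ZMod p), (∀ u ∈ U, ∀ v ∈ U, β u v = 0) →
                  z + Module.finrank (ZMod p) U ≤ k} →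
      m ≤ μ ∧ (μ : ℝ) ≤ (m : ℝ) + 106 * (n : ℝ) ^ (7 / 16 : ℝ) := by
  intro p hp n m μ hm hμ
  subst hm hμ
  exact ⟨MP828.mset_le_mu hp n, MP828.mu_le_106 hp n⟩

end Pool.Agent.Results.MP_828a6d_al.BilinearReduction
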