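import Pool.Agent.Lib.MP_828a6d_al.ClH

set_option autoImplicit false

namespace Pool.Agent.Results.MP_828a6d_al.ClassTwoSubgroup

open scoped commutatorElement

/-- Let `p` be a prime and `G` a finite `p`-group all of whose abelian subgroups have order at most
`p ^ m`.  Then `G` has a subgroup `V` of index at most `p ^ (20 m ^ (7/4))` and of nilpotency class
at most `2` in which every `p`-th power is central. -/
theorem result {G : Type*} [Group G] [Finite G] (p m : ℕ) (hp : p.Prime) (hG : IsPGroup p G)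
    (hm : ∀ H : Subgroup G, (∀ x ∈ H, ∀ y ∈ H, x * y = y * x) → Nat.card H ≤ p ^ m) :
    ∃ V : Subgroup G, (∀ x ∈ V, ∀ y ∈ V, ∀ z ∈ V, ⁅⁅x, y⁆, z⁆ = 1) ∧
      (∀ x ∈ V, ∀ y ∈ V, ⁅x ^ p, y⁆ = 1) ∧
      (Nat.card G : ℝ) ≤ (p : ℝ) ^ (20 * (m : ℝ) ^ (7 / 4 : ℝ)) * (Nat.card V : ℝ) :=
  MP828.class_two_elem hp hG hm

end Pool.Agent.Results.MP_828a6d_al.ClassTwoSubgroup
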