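import Pool.Agent.Lib.MP_828a6d_al.ClG

set_option autoImplicit false

namespace Pool.Agent.Results.MP_828a6d_al.LowerTwo

/-- Let `m_p(n)` be the largest `k` such that every group of order `p ^ n` has an abelian subgroup of
order `p ^ k`.  For every prime `p`, the prime `2` included, and every `n`,
`m_p(n) ≥ 2 √n - 76 n ^ (3/8)`. -/
theorem result :
    ∀ p : ℕ, p.Prime → ∀ n : ℕ,
      2 * Real.sqrt (n : ℝ) - 76 * (n : ℝ) ^ (3 / 8 : ℝ) ≤
        ((sSup {k : ℕ | ∀ (G : Type) [Group G], Nat.card G = p ^ n →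
              ∃ H : Subgroup G, (∀ x ∈ H, ∀ y ∈ H, x * y = y * x) ∧
                Nat.card H = p ^ k} : ℕ) : ℝ) :=
  fun _ hp n => MP828.explicit_two hp n

end Pool.Agent.Results.MP_828a6d_al.LowerTwo
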